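import Mathlib

/-!
# Type I exponential IP sets: the level colouring
-/

namespace Pool.Agent.N329.EXP

/-- The tower function `T 0 = 1`, `T (k+1) = 2 ^ T k`. -/
def T : ℕ → ℕ
  | 0 => 1
  | (k + 1) => 2 ^ T k

lemma T_succ (k : ℕ) : T (k + 1) = 2 ^ T k := rfl

lemma T_strictMono : StrictMono T :=
  strictMono_nat_of_lt_succ (fun n => by rw [T_succ]; exact Nat.lt_two_pow_self)

lemma lt_T (k : ℕ) : k < T k := by
  induction k with
  | zero => simp [T]
  | succ n ih =>
    have := T_strictMono (Nat.lt_succ_self n)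
    simp only [Nat.succ_eq_add_one] at this
    omega

/-- The level of `n`: the largest `K` with `T K ≤ n`. -/
def lev (n : ℕ) : ℕ := Nat.findGreatest (fun k => T k ≤ n) n

lemma T_lev_le {n : ℕ} (hn : 1 ≤ n) : T (lev n) ≤ n := by
  have := Nat.findGreatest_spec (P := fun k => T k ≤ n) (Nat.zero_le n) (by simpa [T] using hn)
  exact this

lemma lt_T_lev (n : ℕ) : n < T (lev n + 1) := by
  by_contra h
  push Not at h
  have h1 : lev n + 1 ≤ n := ((lt_T _).le.trans h)
  have := Nat.le_findGreatest (P := fun k => T k ≤ n) h1 h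
  have h2 : lev n + 1 ≤ lev n := this
  omega

lemma lev_eq {n K : ℕ} (h1 : T K ≤ n) (h2 : n < T (K + 1)) : lev n = K := by
  have hn : 1 ≤ n := by
    have := lt_T K
    omega
  have h3 := T_lev_le hn
  have h4 := lt_T_lev n
  have h5 : K < lev n + 1 := T_strictMono.lt_iff_lt.1 (h1.trans_lt h4)
  have h6 : lev n < K + 1 := T_strictMono.lt_iff_lt.1 (h3.trans_lt h2)
  omega

lemma lev_T (K : ℕ) : lev (T K) = K := lev_eq le_rfl (T_strictMono (Nat.lt_succ_self K))

lemma sq_lt_two_pow (x : ℕ) : x * x < 2 ^ (x + 1) := by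
  have h : ∀ x : ℕ, x * x < 2 ^ (x + 1) ∧ 2 * x + 1 ≤ 2 ^ (x + 1) := by
    intro x
    induction x with
    | zero => simp
    | succ n ih =>
      obtain ⟨h1, h2⟩ := ih
      have h3 : 2 ^ (n + 1 + 1) = 2 * 2 ^ (n + 1) := by ring
      have h4 : 2 ≤ 2 ^ (n + 1) := by
        calc 2 = 2 ^ 1 := by norm_num
          _ ≤ 2 ^ (n + 1) := Nat.pow_le_pow_right (by norm_num) (by omega)
      constructor
      · nlinarith
      · omega
  exact (h x).1

/-- The key estimate: for `2 ≤ a ≤ x`, `a ^ x` is one or two levels above `x`. -/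
lemma lev_pow {a x : ℕ} (ha : 2 ≤ a) (hax : a ≤ x) :
    lev (a ^ x) = lev x + 1 ∨ lev (a ^ x) = lev x + 2 := by
  set K := lev x with hK
  have hx1 : 1 ≤ x := by omega
  have h1 : T K ≤ x := T_lev_le hx1
  have h2 : x < T (K + 1) := lt_T_lev x
  have h3 : T (K + 1) ≤ a ^ x := by
    rw [T_succ]
    calc 2 ^ T K ≤ 2 ^ x := Nat.pow_le_pow_right (by norm_num) h1
      _ ≤ a ^ x := Nat.pow_le_pow_left ha x
  have h4 : a ^ x < T (K + 3) := by
    have h5 : a ^ x ≤ 2 ^ (x * x) := by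
      calc a ^ x ≤ x ^ x := Nat.pow_le_pow_left hax x
        _ ≤ (2 ^ x) ^ x := Nat.pow_le_pow_left (Nat.lt_two_pow_self).le x
        _ = 2 ^ (x * x) := by rw [pow_mul]
    have h6 : x * x < T (K + 2) := by
      rw [T_succ]
      calc x * x < 2 ^ (x + 1) := sq_lt_two_pow x
        _ ≤ 2 ^ T (K + 1) := Nat.pow_le_pow_right (by norm_num) h2
    calc a ^ x ≤ 2 ^ (x * x) := h5
      _ < 2 ^ T (K + 2) := Nat.pow_lt_pow_right (by norm_num) h6
      _ = T (K + 3) := (T_succ (K + 2)).symm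
  have h7 : K + 1 < lev (a ^ x) + 1 := T_strictMono.lt_iff_lt.1 (h3.trans_lt (lt_T_lev _))
  have h8 : lev (a ^ x) < K + 3 := by
    refine T_strictMono.lt_iff_lt.1 (lt_of_le_of_lt (T_lev_le ?_) h4)
    exact Nat.one_le_pow _ _ (by omega)
  omega

/-- The colouring of `ℕ` by the level modulo `r`. -/
def levCol (r : ℕ) (hr : 3 ≤ r) (n : ℕ) : Fin r := ⟨lev n % r, Nat.mod_lt _ (by omega)⟩

lemma levCol_surjective (r : ℕ) (hr : 3 ≤ r) : Function.Surjective (levCol r hr) := by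
  intro i
  refine ⟨T i.1, ?_⟩
  apply Fin.ext
  simp only [levCol]
  rw [lev_T]
  exact Nat.mod_eq_of_lt i.2

lemma levCol_pow_ne (r : ℕ) (hr : 3 ≤ r) {a x : ℕ} (ha : 2 ≤ a) (hax : a ≤ x) :
    levCol r hr (a ^ x) ≠ levCol r hr x := by
  intro h
  have h1 : lev (a ^ x) % r = lev x % r := congrArg Fin.val h
  have h2 : lev (a ^ x) ≡ lev x [MOD r] := h1
  rcases lev_pow ha hax with h3 | h3
  · rw [h3] at h2
    have h4 := (Nat.modEq_iff_dvd' (by omega : lev x ≤ lev x + 1)).1 h2.symm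
    have h5 : lev x + 1 - lev x = 1 := by omega
    rw [h5] at h4
    have := Nat.le_of_dvd (by norm_num) h4
    omega
  · rw [h3] at h2
    have h4 := (Nat.modEq_iff_dvd' (by omega : lev x ≤ lev x + 2)).1 h2.symm
    have h5 : lev x + 2 - lev x = 2 := by omega
    rw [h5] at h4
    have := Nat.le_of_dvd (by norm_num) h4
    omega

end Pool.Agent.N329.EXP
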