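import Mathlib

/-!
# A uniformly recurrent point in the orbit closure of a colouring of `ℕ+` (multiplicative action)
-/

namespace Pool.Agent.N329.EXP

open Set

variable {κ : Type*}

/-- The multiplicative shift. -/
def sh (t : ℕ+) (ω : ℕ+ → κ) : ℕ+ → κ := fun e => ω (t * e)

lemma exists_unif_rec [Finite κ] (c1 : ℕ+ → κ) : ∃ cs : ℕ+ → κ,
    (∀ G : Finset ℕ+, ∃ t : ℕ+, ∀ g ∈ G, c1 (t * g) = cs g) ∧
    (∀ G : Finset ℕ+, ∃ F : Finset ℕ+, ∀ n : ℕ+, ∃ f ∈ F, ∀ g ∈ G, cs (n * f * g) = cs g) := by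
  classical
  let _ : TopologicalSpace κ := ⊥
  have : DiscreteTopology κ := ⟨rfl⟩
  have hcont : ∀ t : ℕ+, Continuous (sh t : (ℕ+ → κ) → (ℕ+ → κ)) := fun t =>
    continuous_pi fun e => continuous_apply _
  have hshsh : ∀ (s t : ℕ+) (ω : ℕ+ → κ), sh s (sh t ω) = sh (t * s) ω := by
    intro s t ω
    funext e
    simp [sh, mul_assoc]
  -- orbit closures
  let oc : (ℕ+ → κ) → Set (ℕ+ → κ) := fun ω => closure (range fun t : ℕ+ => sh t ω)
  have hoc_inv : ∀ ω (s : ℕ+), MapsTo (sh s) (oc ω) (oc ω) := by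
    intro ω s
    apply MapsTo.closure _ (hcont s)
    rintro _ ⟨t, rfl⟩
    exact ⟨t * s, by simp [hshsh]⟩
  have hoc_ne : ∀ ω, (oc ω).Nonempty := fun ω => ⟨_, subset_closure ⟨1, rfl⟩⟩
  let S : Set (Set (ℕ+ → κ)) :=
    {M | M.Nonempty ∧ IsClosed M ∧ ∀ s : ℕ+, MapsTo (sh s) M M}
  have hS0 : oc c1 ∈ S := ⟨hoc_ne _, isClosed_closure, hoc_inv _⟩
  obtain ⟨M, hMsub, hMmin⟩ := zorn_superset_nonempty S (by
    intro c hcS hchain hcne
    refine ⟨⋂₀ c, ⟨?_, ?_, ?_⟩, ?_⟩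
    · haveI : Nonempty c := hcne.to_subtype
      apply IsCompact.nonempty_sInter_of_directed_nonempty_isCompact_isClosed
      · intro U hU V hV
        rcases hchain.total hU hV with h | h
        · exact ⟨U, hU, subset_rfl, h⟩
        · exact ⟨V, hV, h, subset_rfl⟩
      · exact fun U hU => (hcS hU).1
      · exact fun U hU => (hcS hU).2.1.isCompact
      · exact fun U hU => (hcS hU).2.1
    · exact isClosed_sInter fun U hU => (hcS hU).2.1
    · intro s ω hω U hU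
      exact (hcS hU).2.2 s (hω U hU)
    · exact fun s hs => sInter_subset_of_mem hs) (oc c1) hS0
  obtain ⟨⟨cs, hcs⟩, hMcl, hMinv⟩ := hMmin.prop
  have hU : ∀ G : Finset ℕ+, IsOpen {ω : ℕ+ → κ | ∀ g ∈ G, ω g = cs g} := by
    intro G
    have : {ω : ℕ+ → κ | ∀ g ∈ G, ω g = cs g} = ⋂ g ∈ G, (fun ω : ℕ+ → κ => ω g) ⁻¹' {cs g} := by
      ext ω; simp
    rw [this]
    exact isOpen_biInter_finset fun g _ => (isOpen_discrete _).preimage (continuous_apply g)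
  refine ⟨cs, ?_, ?_⟩
  · intro G
    have h1 : cs ∈ oc c1 := hMsub hcs
    obtain ⟨ω, hω1, ⟨t, rfl⟩⟩ := mem_closure_iff.1 h1 _ (hU G) (by simp)
    exact ⟨t, fun g hg => hω1 g hg⟩
  · intro G
    have hcover : M ⊆ ⋃ f : ℕ+, (sh f) ⁻¹' {ω : ℕ+ → κ | ∀ g ∈ G, ω g = cs g} := by
      intro ω hω
      have hsub : oc ω ⊆ M := by
        apply closure_minimal _ hMcl
        rintro _ ⟨t, rfl⟩
        exact hMinv t hω
      have heq : M ⊆ oc ω := hMmin.le_of_le ⟨hoc_ne _, isClosed_closure, hoc_inv _⟩ hsub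
      have h1 : cs ∈ oc ω := heq hcs
      obtain ⟨ω', hω1, ⟨t, rfl⟩⟩ := mem_closure_iff.1 h1 _ (hU G) (by simp)
      exact mem_iUnion.2 ⟨t, hω1⟩
    obtain ⟨F, hF⟩ := hMcl.isCompact.elim_finite_subcover _
      (fun f : ℕ+ => (hU G).preimage (hcont f)) hcover
    refine ⟨F, fun n => ?_⟩
    have h2 := hF (hMinv n hcs)
    simp only [mem_iUnion, exists_prop, mem_preimage, mem_ofPred_eq] at h2
    obtain ⟨f, hf, hfg⟩ := h2
    refine ⟨f, hf, fun g hg => ?_⟩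
    have := hfg g hg
    simpa [sh, mul_assoc] using this

end Pool.Agent.N329.EXP
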