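import Pool.Agent.N329.EXP2

/-!
# The inductive step (Hales-Jewett + Hindman + ultrafilter limits)
-/

namespace Pool.Agent.N329.EXP

open Hindman

lemma FS_coe (b : Stream' ℕ) (m : ℕ) (h : m ∈ FS b) :
    ∀ a : Stream' ℕ+, b = a.map (fun n : ℕ+ => (n : ℕ)) → ∃ m' ∈ FS a, (m' : ℕ) = m := by
  induction h with
  | head' b =>
    rintro a rfl
    exact ⟨a.head, FS.head a, rfl⟩
  | tail' b m h ih =>
    rintro a rfl
    obtain ⟨m', hm', rfl⟩ := ih a.tail rfl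
    exact ⟨m', FS.tail a m' hm', rfl⟩
  | cons' b m h ih =>
    rintro a rfl
    obtain ⟨m', hm', rfl⟩ := ih a.tail rfl
    exact ⟨a.head + m', FS.cons a m' hm', rfl⟩

lemma hindman_finite {F : Type*} [Finite F] (f : ℕ+ → F) : ∃ φ : F, ∃ a : ℕ → ℕ+,
    ∀ S : Finset ℕ, S.Nonempty → ∀ s : ℕ+, (s : ℕ) = ∑ i ∈ S, (a i : ℕ) → f s = φ := by
  obtain ⟨c, ⟨φ, rfl⟩, a, ha⟩ := exists_FS_of_finite_cover (Set.range fun φ : F => f ⁻¹' {φ})
    (Set.finite_range _) (fun n _ => ⟨f ⁻¹' {f n}, ⟨f n, rfl⟩, rfl⟩)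
  refine ⟨φ, fun i => a.get i, fun S hS s hs => ?_⟩
  have h1 := FS.finsetSum (a.map (fun n : ℕ+ => (n : ℕ))) S hS
  obtain ⟨m', hm', h2⟩ := FS_coe _ _ h1 a rfl
  have h3 : m' = s := by
    apply PNat.coe_injective
    rw [h2, hs]
    rfl
  subst h3
  exact ha hm'

/-- The multiplier attached to a letter of the Hales-Jewett alphabet `Option Y`. -/
def mu {Y : Finset ℕ+} : Option Y → ℕ
  | none => 0
  | some y => ((y : ℕ+) : ℕ)

lemma step {κ : Type*} [Finite κ] (c c1 cs : ℕ+ → κ) (τ : Ultrafilter ℕ+)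
    (h1 : ∀ e : ℕ+, ∀ᶠ π in (τ : Filter ℕ+), c (π ^ (e : ℕ)) = c1 e)
    (ha : ∀ G : Finset ℕ+, ∃ t : ℕ+, ∀ g ∈ G, c1 (t * g) = cs g)
    (hb : ∀ G : Finset ℕ+, ∃ F : Finset ℕ+, ∀ n : ℕ+, ∃ f ∈ F, ∀ g ∈ G, cs (n * f * g) = cs g)
    (Y : Finset ℕ+) (hY1 : 1 ∈ Y) (C : κ) (hinv : ∃ z : ℕ+, ∀ y ∈ Y, cs (z * y) = C)
    (P : ℕ+ → Prop) (hP : ∀ᶠ π in (τ : Filter ℕ+), P π) :
    ∃ π e : ℕ+, P π ∧ (∀ y ∈ Y, c (π ^ ((e * y : ℕ+) : ℕ)) = C) ∧
      ∃ z : ℕ+, ∀ y ∈ Y, cs (z * y) = C ∧ cs (z * π ^ ((e * y : ℕ+) : ℕ)) = C := by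
  classical
  obtain ⟨z0, hz0⟩ := hinv
  obtain ⟨F0, hF0⟩ := hb (Y.image (fun y => z0 * y))
  let F := F0.image (fun f => f * z0)
  have hF : ∀ n : ℕ+, ∃ f : F, ∀ y ∈ Y, cs (n * f * y) = C := by
    intro n
    obtain ⟨f, hf, hfg⟩ := hF0 n
    refine ⟨⟨f * z0, Finset.mem_image_of_mem _ hf⟩, fun y hy => ?_⟩
    have := hfg (z0 * y) (Finset.mem_image_of_mem _ hy)
    rw [hz0 y hy] at this
    rw [← this]
    congr 1
    simp [mul_assoc]
  choose f hf using hF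
  obtain ⟨ι, _, hι⟩ := Combinatorics.Line.exists_mono_in_high_dimension (Option Y) F
  obtain ⟨φ, a, hφ⟩ := hindman_finite f
  let d : ι → ℕ := fun i => (a (Fintype.equivFin ι i) : ℕ)
  let sN : Finset ι → ℕ := fun S => ∑ i ∈ S, d i
  let sP : Finset ι → ℕ+ := fun S => (sN S).toPNat'
  have hsP : ∀ S : Finset ι, S.Nonempty → (sP S : ℕ) = sN S := by
    intro S hS
    have hpos : 0 < sN S := Finset.sum_pos (fun i _ => (a _).pos) hS
    simp only [sP, Nat.toPNat'_coe, hpos, if_true]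
  have hfs : ∀ S : Finset ι, S.Nonempty → f (sP S) = φ := by
    intro S hS
    apply hφ (S.map ⟨fun i => (Fintype.equivFin ι i : ℕ), fun i j hij =>
      (Fintype.equivFin ι).injective (Fin.ext hij)⟩) (hS.map)
    rw [Finset.sum_map, hsP S hS]
    rfl
  obtain ⟨t, ht⟩ := ha ((Finset.univ ×ˢ Y).image (fun p : Finset ι × ℕ+ => sP p.1 * φ * p.2))
  have ht' : ∀ S : Finset ι, S.Nonempty → ∀ y ∈ Y, c1 (t * (sP S * φ * y)) = C := by
    intro S hS y hy
    rw [ht _ (Finset.mem_image.2 ⟨(S, y), by simp [hy], rfl⟩)]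
    have := hf (sP S) y hy
    rwa [hfs S hS] at this
  let e : Finset ι → ℕ+ := fun S => t * (sP S * φ)
  have key : ∀ π : ℕ+, ∃ S : Finset ι, S.Nonempty ∧ ∃ z : ℕ+, ∀ y ∈ Y, cs (z * y) = C ∧
      cs (z * π ^ ((e S * y : ℕ+) : ℕ)) = C := by
    intro π
    let E : (ι → Option Y) → ℕ := fun w => ∑ i, ((t : ℕ) * (φ : ℕ+)) * d i * mu (w i)
    obtain ⟨l, k, hk⟩ := hι (fun w => f (π ^ E w))
    let S : Finset ι := Finset.univ.filter (fun i => l.idxFun i = none)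
    have hS : S.Nonempty := by
      obtain ⟨i, hi⟩ := l.proper
      exact ⟨i, by simp [S, hi]⟩
    let b : ℕ := ∑ i ∈ Finset.univ.filter (fun i => ¬ l.idxFun i = none),
      ((t : ℕ) * (φ : ℕ+)) * d i * mu ((l.idxFun i).getD none)
    have hE : ∀ x : Option Y, E (l x) = b + (e S : ℕ) * mu x := by
      intro x
      have h2 : E (l x) = (∑ i ∈ S, ((t : ℕ) * (φ : ℕ+)) * d i * mu x) + b := by
        simp only [E]
        rw [← Finset.sum_filter_add_sum_filter_not Finset.univ (fun i => l.idxFun i = none)]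
        congr 1
        · apply Finset.sum_congr rfl
          intro i hi
          rw [Finset.mem_filter] at hi
          rw [Combinatorics.Line.coe_apply, hi.2]
          rfl
        · apply Finset.sum_congr rfl
          intro i hi
          rw [Finset.mem_filter] at hi
          rw [Combinatorics.Line.coe_apply]
          obtain ⟨v, hv⟩ := Option.ne_none_iff_exists'.1 hi.2
          rw [hv]
          rfl
      rw [h2, add_comm]
      congr 1
      have h3 : ((e S : ℕ+) : ℕ) = (t : ℕ) * (sN S * ((φ : ℕ+) : ℕ)) := by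
        simp only [e, PNat.mul_coe, hsP S hS]
      rw [h3, ← Finset.sum_mul, ← Finset.mul_sum]
      ring
    refine ⟨S, hS, π ^ b * k, fun y hy => ⟨?_, ?_⟩⟩
    · have h4 := hf (π ^ b) y hy
      have h5 : f (π ^ b) = k := by
        have h6 : f (π ^ E (l none)) = k := hk none
        rw [hE none] at h6
        simpa [mu] using h6
      rwa [h5] at h4
    · have h4 := hf (π ^ (b + (e S : ℕ) * y)) 1 hY1
      have h5 : f (π ^ (b + (e S : ℕ) * y)) = k := by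
        have h6 : f (π ^ E (l (some ⟨y, hy⟩))) = k := hk (some ⟨y, hy⟩)
        rw [hE (some ⟨y, hy⟩)] at h6
        simpa [mu] using h6
      rw [h5, mul_one] at h4
      rw [← h4]
      congr 1
      rw [pow_add, PNat.mul_coe]
      exact mul_right_comm _ _ _
  obtain ⟨S, hS⟩ := Ultrafilter.eventually_exists_iff.1
    (Filter.Eventually.of_forall (f := (τ : Filter ℕ+)) key)
  have hcol : ∀ᶠ π in (τ : Filter ℕ+), ∀ y ∈ Y,
      c (π ^ ((e S * y : ℕ+) : ℕ)) = c1 (e S * y) :=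
    (Filter.eventually_all_finset Y).2 (fun y _ => h1 _)
  obtain ⟨π, ⟨⟨hSne, z, hz⟩, hcol'⟩, hPπ⟩ := ((hS.and hcol).and hP).exists
  refine ⟨π, e S, hPπ, fun y hy => ?_, z, hz⟩
  rw [hcol' y hy, ← ht' S hSne y hy]
  congr 1
  simp only [e, mul_assoc]

end Pool.Agent.N329.EXP
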