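import Pool.Agent.N329.EXP3

/-!
# The infinite sequence for type II
-/

namespace Pool.Agent.N329.EXP

open Filter

lemma ultra_lim {α κ : Type*} [Finite κ] (τ : Ultrafilter α) (f : α → κ) :
    ∃ k, ∀ᶠ x in (τ : Filter α), f x = k :=
  Ultrafilter.eventually_exists_iff.1 (Filter.Eventually.of_forall fun x => ⟨f x, rfl⟩)

lemma hyper_large (N : ℕ+) : ∀ᶠ π in ((hyperfilter ℕ+ : Ultrafilter ℕ+) : Filter ℕ+), N < π := by
  have hfin : {π : ℕ+ | ¬ N < π}.Finite := by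
    have : {π : ℕ+ | ¬ N < π} ⊆ Set.Iic N := fun π hπ => not_lt.1 hπ
    exact (Set.finite_Iic N).subset this
  have := Set.Finite.compl_mem_hyperfilter hfin
  refine mem_of_superset this ?_
  intro π hπ
  by_contra h
  exact hπ h

theorem exists_seq {κ : Type*} [Finite κ] (c : ℕ → κ) (N : ℕ) : ∃ (C : κ) (x : ℕ → ℕ)
    (Y : ℕ → Set ℕ), StrictMono x ∧ N < x 0 ∧ 1 ∈ Y 0 ∧ (∀ n, ∀ y ∈ Y n, c (x n ^ y) = C) ∧
      (∀ n, Y n ⊆ Y (n + 1)) ∧ (∀ n, ∀ y ∈ Y n, x n ^ y ∈ Y (n + 1)) := by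
  classical
  let c' : ℕ+ → κ := fun n => c n
  let τ : Ultrafilter ℕ+ := hyperfilter ℕ+
  have hlim : ∀ e : ℕ+, ∃ k, ∀ᶠ π in (τ : Filter ℕ+), c' (π ^ (e : ℕ)) = k :=
    fun e => ultra_lim τ _
  choose c1 h1 using hlim
  obtain ⟨cs, ha, hb⟩ := exists_unif_rec c1
  set C := cs 1 with hC
  have nx : ∀ s : {p : Finset ℕ+ × ℕ+ // 1 ∈ p.1 ∧ ∃ z : ℕ+, ∀ y ∈ p.1, cs (z * y) = C},
      ∃ s' : {p : Finset ℕ+ × ℕ+ // 1 ∈ p.1 ∧ ∃ z : ℕ+, ∀ y ∈ p.1, cs (z * y) = C},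
        s.1.2 < s'.1.2 ∧ (∀ y ∈ s.1.1, c' (s'.1.2 ^ (y : ℕ)) = C) ∧
        s'.1.1 = s.1.1 ∪ s.1.1.image (fun y : ℕ+ => s'.1.2 ^ (y : ℕ)) := by
    rintro ⟨⟨Y, M⟩, hY1, hinv⟩
    simp only at hY1 hinv
    obtain ⟨π, e, hπ, hcol, z, hz⟩ := step c' c1 cs τ h1 ha hb Y hY1 C hinv (fun π => M < π)
      (hyper_large M)
    have hpow : ∀ y : ℕ+, (π ^ (e : ℕ)) ^ (y : ℕ) = π ^ ((e * y : ℕ+) : ℕ) := by
      intro y
      rw [← pow_mul, PNat.mul_coe]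
    refine ⟨⟨(Y ∪ Y.image (fun y : ℕ+ => (π ^ (e : ℕ)) ^ (y : ℕ)), π ^ (e : ℕ)), ?_, z, ?_⟩, ?_, ?_, ?_⟩
    · exact Finset.mem_union_left _ hY1
    · intro y hy
      rcases Finset.mem_union.1 hy with hy | hy
      · exact (hz y hy).1
      · obtain ⟨y', hy', rfl⟩ := Finset.mem_image.1 hy
        rw [hpow]
        exact (hz y' hy').2
    · simp only
      have h2 : π ≤ π ^ (e : ℕ) := by
        rw [← PNat.coe_le_coe, PNat.pow_coe]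
        exact Nat.le_self_pow e.pos.ne' _
      exact lt_of_lt_of_le hπ h2
    · intro y hy
      simp only
      rw [hpow]
      exact hcol y hy
    · rfl
  choose nxt hn1 hn2 hn3 using nx
  have hs0 : (1 : ℕ+) ∈ (({1} : Finset ℕ+), N.succPNat).1 ∧ ∃ z : ℕ+,
      ∀ y ∈ (({1} : Finset ℕ+), N.succPNat).1, cs (z * y) = C :=
    ⟨by simp, 1, by simp [hC]⟩
  let s : ℕ → {p : Finset ℕ+ × ℕ+ // 1 ∈ p.1 ∧ ∃ z : ℕ+, ∀ y ∈ p.1, cs (z * y) = C} :=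
    fun n => Nat.rec ⟨({1}, N.succPNat), hs0⟩ (fun _ t => nxt t) n
  have hs : ∀ n, s (n + 1) = nxt (s n) := fun n => rfl
  refine ⟨C, fun n => ((s (n + 1)).1.2 : ℕ), fun n => {m | ∃ y ∈ (s n).1.1, (y : ℕ) = m},
    ?_, ?_, ?_, ?_, ?_, ?_⟩
  · apply strictMono_nat_of_lt_succ
    intro n
    have := hn1 (s (n + 1))
    rw [← hs (n + 1)] at this
    exact this
  · have := hn1 (s 0)
    rw [← hs 0] at this
    have h3 : (N.succPNat : ℕ) < ((s (0 + 1)).1.2 : ℕ) := this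
    rw [Nat.succPNat_coe] at h3
    exact (Nat.lt_succ_self N).trans h3
  · exact ⟨1, (s 0).2.1, rfl⟩
  · rintro n _ ⟨y, hy, rfl⟩
    have := hn2 (s n) y hy
    rw [← hs n] at this
    have h4 : c (((s (n + 1)).1.2 ^ (y : ℕ) : ℕ+) : ℕ) = C := this
    rwa [PNat.pow_coe] at h4
  · rintro n _ ⟨y, hy, rfl⟩
    refine ⟨y, ?_, rfl⟩
    rw [hs n, hn3 (s n)]
    exact Finset.mem_union_left _ hy
  · rintro n _ ⟨y, hy, rfl⟩
    refine ⟨(s (n + 1)).1.2 ^ (y : ℕ), ?_, ?_⟩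
    · rw [hs n, hn3 (s n)]
      exact Finset.mem_union_right _ (Finset.mem_image_of_mem _ hy)
    · rw [PNat.pow_coe]

end Pool.Agent.N329.EXP
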