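import Pool.Agent.N378.KH.Stm2

set_option autoImplicit false

/-! # KH/DIS2: almost surely distinct points in the cube, joint laws -/

open MeasureTheory Filter
open scoped ENNReal

namespace Pool.Agent.N329.KH

open Pool.Agent.N378.KH

theorem t_DIS2 : Pool.Agent.N378.KH.S_DIS2 := by
  classical
  intro n m D ν hD hL
  have := hL.1
  have hdom := hL.2
  have hnull : ∀ (e : Fin n) (A : Set (Fin (m + 1) → ℝ)),
      (volume.restrict (Set.Icc (-1 : Fin (m + 1) → ℝ) 1)) A = 0 → ν e A = 0 := by
    intro e A hA
    refine le_antisymm ((hdom e A).trans ?_) zero_le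
    rw [Measure.smul_apply, hA, smul_zero]
  have h1 : ∀ᵐ x ∂Measure.pi ν, ∀ i j, |x i j| ≤ 1 := by
    rw [ae_all_iff]
    intro e
    have h2 : ∀ᵐ t ∂(ν e), ∀ j, |t j| ≤ 1 := by
      rw [ae_iff]
      refine hnull e _ ?_
      have h3 : {t : Fin (m + 1) → ℝ | ¬ ∀ j, |t j| ≤ 1} =
          (Set.Icc (-1 : Fin (m + 1) → ℝ) 1)ᶜ := by
        ext t
        rw [Set.mem_compl_iff, Set.mem_Icc, Pi.le_def, Pi.le_def, ← forall_and]
        simp only [abs_le]
        rfl
      rw [h3, Measure.restrict_apply (measurableSet_Icc.compl), Set.compl_inter_self, measure_empty]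
    exact (Measure.tendsto_eval_ae_ae (μ := ν) (i := e)).eventually h2
  have h2 : ∀ᵐ x ∂Measure.pi ν, ∀ i i' : Fin n, i ≠ i' → x i ≠ x i' := by
    rw [ae_all_iff]
    intro i
    rw [ae_all_iff]
    intro i'
    by_cases hi : i = i'
    · exact Eventually.of_forall fun x h => absurd hi h
    have hne : i' ≠ i := fun h => hi h.symm
    have hE : MeasurableSet {x : Fin n → Fin (m + 1) → ℝ | x i = x i'} :=
      measurableSet_eq_fun (measurable_pi_apply _) (measurable_pi_apply _)
    have h0 : Measure.pi ν {x : Fin n → Fin (m + 1) → ℝ | x i = x i'} = 0 := by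
      rw [← lintegral_indicator_one hE]
      rw [lintegral_eq_of_lmarginal_eq (μ := ν) {i}
        (g := fun _ => 0) (measurable_one.indicator hE) measurable_const ?_, lintegral_zero]
      rw [lmarginal_singleton, lmarginal_singleton]
      funext x
      rw [lintegral_zero]
      have h3 : ∀ t : Fin (m + 1) → ℝ, ({x : Fin n → Fin (m + 1) → ℝ | x i = x i'}.indicator
          (1 : (Fin n → Fin (m + 1) → ℝ) → ℝ≥0∞)) (Function.update x i t) =
          ({x i'} : Set (Fin (m + 1) → ℝ)).indicator 1 t := by
        intro t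
        simp only [Set.indicator, Set.mem_ofPred_eq, Function.update_self,
          Function.update_of_ne hne, Set.mem_singleton_iff, Pi.one_apply]
      simp only [h3]
      rw [lintegral_indicator_one (measurableSet_singleton _)]
      exact hnull _ _ (by simp)
    filter_upwards [measure_eq_zero_iff_ae_notMem.1 h0] with x hx _ h
    exact hx h
  filter_upwards [h1, h2] with x h3 h4
  exact ⟨h3, fun i i' hi => Function.ne_iff.1 (h4 i i' hi)⟩

end Pool.Agent.N329.KH
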