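import Pool.Agent.N795.PI.Stm

set_option autoImplicit false

namespace Pool.Agent.N795.PI

namespace N329

lemma alg_aux (b₀₀ b₀₁ b₀₂ b₁₀ b₁₁ b₁₂ b₂₀ b₂₁ b₂₂ u v w a k : ℝ)
    (hs : u ^ 2 + v ^ 2 + w ^ 2 = 1)
    (ha : a = b₀₀ * u * u + b₀₁ * u * v + b₀₂ * u * w + (b₁₀ * v * u + b₁₁ * v * v + b₁₂ * v * w)
      + (b₂₀ * w * u + b₂₁ * w * v + b₂₂ * w * w))
    (hk : k = b₀₀ + b₁₁ + b₂₂) :
    a ^ 2 + (k - a) ^ 2 / 2 ≤ b₀₀ ^ 2 + b₀₁ ^ 2 + b₀₂ ^ 2 + (b₁₀ ^ 2 + b₁₁ ^ 2 + b₁₂ ^ 2)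
      + (b₂₀ ^ 2 + b₂₁ ^ 2 + b₂₂ ^ 2) := by
  obtain ⟨c, hc⟩ : ∃ c : ℝ, c = (k - a) / 2 := ⟨_, rfl⟩
  have hkc : k - a = 2 * c := by rw [hc]; ring
  have h1 : b₀₀ * (a * u * u + c * (1 - u * u)) + b₀₁ * (a * u * v - c * (u * v))
      + b₀₂ * (a * u * w - c * (u * w)) + (b₁₀ * (a * v * u - c * (v * u))
      + b₁₁ * (a * v * v + c * (1 - v * v)) + b₁₂ * (a * v * w - c * (v * w)))
      + (b₂₀ * (a * w * u - c * (w * u)) + b₂₁ * (a * w * v - c * (w * v))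
      + b₂₂ * (a * w * w + c * (1 - w * w))) = a * a + c * (k - a) := by
    linear_combination (c - a) * ha - c * hk
  have h2 : (a * u * u + c * (1 - u * u)) ^ 2 + (a * u * v - c * (u * v)) ^ 2
      + (a * u * w - c * (u * w)) ^ 2 + ((a * v * u - c * (v * u)) ^ 2
      + (a * v * v + c * (1 - v * v)) ^ 2 + (a * v * w - c * (v * w)) ^ 2)
      + ((a * w * u - c * (w * u)) ^ 2 + (a * w * v - c * (w * v)) ^ 2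
      + (a * w * w + c * (1 - w * w)) ^ 2) = a ^ 2 + 2 * c ^ 2 := by
    linear_combination (a ^ 2 * (u ^ 2 + v ^ 2 + w ^ 2 + 1) - 2 * a * c * (u ^ 2 + v ^ 2 + w ^ 2)
      + c ^ 2 * (u ^ 2 + v ^ 2 + w ^ 2 - 1)) * hs
  have h3 : 0 ≤ (b₀₀ - (a * u * u + c * (1 - u * u))) ^ 2 + (b₀₁ - (a * u * v - c * (u * v))) ^ 2
      + (b₀₂ - (a * u * w - c * (u * w))) ^ 2 + ((b₁₀ - (a * v * u - c * (v * u))) ^ 2
      + (b₁₁ - (a * v * v + c * (1 - v * v))) ^ 2 + (b₁₂ - (a * v * w - c * (v * w))) ^ 2)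
      + ((b₂₀ - (a * w * u - c * (w * u))) ^ 2 + (b₂₁ - (a * w * v - c * (w * v))) ^ 2
      + (b₂₂ - (a * w * w + c * (1 - w * w))) ^ 2) := by positivity
  rw [hkc] at h1 ⊢
  linear_combination h3 - 2 * h1 + h2

end N329

/-- ALG -/
theorem alg_pf : Alg := by
  intro A x hx
  have hn : 0 < ‖x‖ := norm_pos_iff.mpr hx
  have hn2 : ‖x‖ ^ 2 = x 0 ^ 2 + x 1 ^ 2 + x 2 ^ 2 := by
    rw [EuclideanSpace.norm_sq_eq, Fin.sum_univ_three]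
    simp only [Real.norm_eq_abs, sq_abs]
  have hne : ‖x‖ ≠ 0 := hn.ne'
  simp only [Fin.sum_univ_three]
  have hs : (x 0 / ‖x‖) ^ 2 + (x 1 / ‖x‖) ^ 2 + (x 2 / ‖x‖) ^ 2 = 1 := by
    rw [div_pow, div_pow, div_pow, ← add_div, ← add_div, ← hn2]
    exact div_self (by positivity)
  refine N329.alg_aux (A 0 0) (A 0 1) (A 0 2) (A 1 0) (A 1 1) (A 1 2) (A 2 0) (A 2 1) (A 2 2)
    (x 0 / ‖x‖) (x 1 / ‖x‖) (x 2 / ‖x‖) _ _ hs ?_ rfl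
  field_simp

end Pool.Agent.N795.PI
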